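import Pool.Agent.Helper80.HG.St

/-!
Project HG (MP_1bacb5_al), module NV: conjugation does not move the depth of an element by an
unbounded amount.
-/

set_option autoImplicit false

namespace Pool.Agent.Helper41.HG

open Pool.Agent.Helper80.HG Pool.Agent.Helper58.RK Filter Topology Asymptotics
open scoped commutatorElement

theorem mul_top {q b : ℝ → ℝ} {l : ℝ} (hq : Tendsto q atTop atTop) (hb : Tendsto b atTop (𝓝 l))
    (hl : 0 < l) : Tendsto (fun x => q x * b x) atTop atTop :=
  hq.atTop_mul_pos hl hb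

/-- `a Q - P → +∞` if `P / Q → b < a` -/
theorem sub_top {Q P : ℝ → ℝ} {a b : ℝ} (hQ : Tendsto Q atTop atTop)
    (hP : Tendsto (fun x => P x / Q x) atTop (𝓝 b)) (hab : b < a) :
    Tendsto (fun x => a * Q x - P x) atTop atTop := by
  have h1 : Tendsto (fun x => a - P x / Q x) atTop (𝓝 (a - b)) := hP.const_sub a
  have h2 := mul_top hQ h1 (by linarith)
  refine h2.congr' ?_
  filter_upwards [hQ.eventually_gt_atTop 0] with x hx
  have hx' : Q x ≠ 0 := hx.ne'
  field_simp

/-- `log Q / Q → 0` -/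
theorem log_div {Q : ℝ → ℝ} (hQ : Tendsto Q atTop atTop) :
    Tendsto (fun x => Real.log (Q x) / Q x) atTop (𝓝 0) :=
  (Real.isLittleO_log_id_atTop.tendsto_div_nhds_zero).comp hQ

/-- the derivative of a function of `H` tending to `+∞` is at most the square of the function -/
theorem deriv_le_sq {H : Set (ℝ → ℝ)} (hB : Bas H) {Q Q' : ℝ → ℝ} (hQ : Q ∈ H)
    (hQt : Tendsto Q atTop atTop) (hd : ∀ᶠ x in atTop, HasDerivAt Q (Q' x) x) :
    ∀ᶠ x in atTop, Q' x ≤ Q x ^ 2 := by
  have h1 : (fun x => (Q x)⁻¹) ∈ H := hB.inv Q hQ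
  have h2 : Tendsto (fun x => (Q x)⁻¹) atTop (𝓝 0) := hQt.inv_tendsto_atTop
  have h3 : ∀ᶠ x in atTop, HasDerivAt (fun x => (Q x)⁻¹) (-Q' x / Q x ^ 2) x := by
    filter_upwards [hd, hQt.eventually_gt_atTop 0] with x hx hx0
    exact hx.inv hx0.ne'
  have h4 := hB.dlim _ h1 0 _ h2 h3
  filter_upwards [h4.eventually (lt_mem_nhds (show (-1 : ℝ) < 0 by norm_num)),
    hQt.eventually_gt_atTop 0] with x hx hx0
  have h5 : 0 < Q x ^ 2 := by positivity
  rw [lt_div_iff₀ h5] at hx
  linarith

/-- the derivative of the depth of `f` tends to `+∞` -/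
theorem deriv_top {H : Set (ℝ → ℝ)} (hB : Bas H) {Γ : Type} [Group Γ] {θ : Γ → ℝ → ℝ}
    (hS : SB H θ) {g : Γ} {Q Q' L1 : ℝ → ℝ} (hQ : Q ∈ H) (hQt : Tendsto Q atTop atTop)
    (hd : ∀ᶠ x in atTop, HasDerivAt Q (Q' x) x)
    (h01 : Tendsto (fun x => Q x - L1 x) atTop atTop)
    (h1 : Tendsto (fun z => L1 (θ g z) - Q z) atTop (𝓝 0)) : Tendsto Q' atTop atTop := by
  have hQ'H : Q' ∈ H := hB.dmem Q hQ Q' hd
  have hpos : ∀ᶠ x in atTop, 0 < Q' x := hB.dpos Q hQ Q' hQt hd
  rcases hB.lim Q' hQ'H with ⟨c, hc⟩ | hc | hc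
  · exfalso
    -- `Q'` is bounded by `c + 1`
    have hbd : ∀ᶠ x in atTop, Q' x < c + 1 := hc.eventually (gt_mem_nhds (by linarith))
    obtain ⟨M, hM⟩ := eventually_atTop.1 (hd.and (hpos.and hbd))
    have hc0 : 0 ≤ c + 1 := by
      have := hM M le_rfl
      linarith [this.2.1, this.2.2]
    have hmv : ∀ x, M ≤ x → ∀ y, M ≤ y → |Q y - Q x| ≤ (c + 1) * |y - x| := by
      intro x hx y hy
      have := Convex.norm_image_sub_le_of_norm_hasDerivWithin_le (f := Q) (f' := Q')
        (s := Set.Ici M) (C := c + 1)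
        (fun z hz => (hM z hz).1.hasDerivWithinAt)
        (fun z hz => by
          rw [Real.norm_eq_abs, abs_of_pos (hM z hz).2.1]
          exact (hM z hz).2.2.le) (convex_Ici M) hx hy
      simpa only [Real.norm_eq_abs] using this
    have htop := hS.top g
    have hdsp : Tendsto (dsp θ g) atTop (𝓝 0) := hS.sml g
    -- the difference tends to zero
    have e1 : Tendsto (fun z => Q (θ g z) - Q z) atTop (𝓝 0) := by
      have h2 : Tendsto (fun z => (c + 1) * |dsp θ g z|) atTop (𝓝 0) := by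
        have := (hdsp.abs).const_mul (c + 1)
        simpa using this
      refine squeeze_zero_norm' ?_ h2
      filter_upwards [eventually_ge_atTop M, htop.eventually_ge_atTop M] with z hz hz'
      rw [Real.norm_eq_abs]
      exact hmv z hz _ hz'
    -- and to infinity
    have e2 : Tendsto (fun z => Q (θ g z) - Q z) atTop atTop := by
      have h2 := (h01.comp htop).atTop_add h1
      refine h2.congr fun z => ?_
      simp only [Function.comp]
      ring
    exact not_tendsto_nhds_of_tendsto_atTop e2 0 e1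
  · exact hc
  · exfalso
    obtain ⟨x, hx1, hx2⟩ := (hpos.and (hc.eventually_lt_atBot 0)).exists
    linarith

/-- Module NV. -/
theorem hNV : StNV := by
  intro hLN hDP hCM hWN hPC hSQ hXP hKN H hB Γ _ θ r hS hr f g L0 L1 hf hgf hlim
  obtain ⟨L, c, hc0, hc1, hPs, hshift, hdiff, hratio⟩ :=
    hSQ hPC H hB Γ θ hS f g L0 L1 hf hgf hlim
  set F : ℕ → Γ := fun n => g ^ n * f * (g ^ n)⁻¹ with hF
  have hLH : ∀ n, L n ∈ H := fun n => (hPs n).1
  have hLt : ∀ n, Tendsto (L n) atTop atTop := fun n => (hPs n).2.1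
  have hle : ∀ i j, i ≤ j → ∀ᶠ x in atTop, L j x ≤ L i x := by
    intro i j hij
    rcases eq_or_lt_of_le hij with h | h
    · subst h; exact Eventually.of_forall fun x => le_rfl
    · filter_upwards [(hdiff i j h).eventually_ge_atTop 0] with x hx
      linarith
  rcases eq_or_lt_of_le hc1 with hc | hc
  · -- the case `c = 1`
    refine hWN hLN hDP hCM H hB Γ θ r hS hr (fun i => F (r - i)) (fun i => L (r - i)) (L r)
      (1 / 2) 0 (by norm_num) (by norm_num) (hLH r) (hLt r) (fun i _ => hPs (r - i)) ?_ ?_ ?_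
    · intro i j hij hj
      exact hdiff (r - j) (r - i) (by omega)
    · intro i _
      filter_upwards [hle (r - i) r (by omega)] with x hx
      linarith
    · intro i _
      have h1 : Tendsto (fun x => (3 / 2) * (L r x / L 0 x) - L (r - i) x / L 0 x) atTop
          (𝓝 ((3 / 2) * c ^ r - c ^ (r - i))) :=
        ((hratio r).const_mul (3 / 2)).sub (hratio (r - i))
      rw [hc, one_pow, one_pow] at h1
      have h2 := mul_top (hLt 0) h1 (by norm_num)
      refine h2.congr' ?_
      filter_upwards [(hLt 0).eventually_gt_atTop 0] with x hx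
      have hx' : L 0 x ≠ 0 := hx.ne'
      field_simp
      ring
  · -- the case `c < 1`
    obtain ⟨Q', hQ'H, hd⟩ := hB.deriv (L 0) (hLH 0)
    have hf0 : Ps H θ f (L 0) := by
      have := hPs 0
      simpa using this
    have hs1 : Tendsto (fun z => L 1 (θ g z) - L 0 z) atTop (𝓝 0) := by
      have := hshift 1
      simpa using this
    have hQ't : Tendsto Q' atTop atTop :=
      deriv_top hB hS (hLH 0) (hLt 0) hd (hdiff 0 1 (by norm_num)) hs1
    have hcp : ∀ n, c ^ (n + 1) ≤ c := fun n => by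
      rw [pow_succ]
      exact mul_le_of_le_one_left hc0 (pow_le_one₀ hc0 hc1)
    -- the commutators
    have hK : ∀ n, ∃ (K : ℝ → ℝ) (B : ℝ), Ps H θ ⁅F (n + 1), f⁆ K ∧
        ∀ᶠ z in atTop, |K z - (L 0 z + L (n + 1) z - Real.log (Q' z))| ≤ B := by
      intro n
      refine hKN hLN H hB Γ θ hS (F (n + 1)) f (L (n + 1)) (L 0) Q' ((1 + c) / 2) (hPs (n + 1))
        hf0 (by linarith) ?_ ?_ hd hQ't
      · exact sub_top (hLt 0) (hratio (n + 1)) (by have := hcp n; linarith)
      · exact hXP.2 H hB Γ θ hS (g ^ (n + 1)) (L 0) (hLH 0) (L (n + 1)) (hLH (n + 1)) (hLt 0)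
          (hLt (n + 1)) (hshift (n + 1)) 2
    choose K B hKPs hKB using hK
    set BB : ℝ := ∑ n ∈ Finset.range (r + 1), |B n| with hBB
    have hB0 : 0 ≤ BB := Finset.sum_nonneg fun n _ => abs_nonneg _
    have hBn : ∀ n, n ≤ r → B n ≤ BB := fun n hn =>
      (le_abs_self _).trans (Finset.single_le_sum (f := fun n => |B n|)
        (fun m _ => abs_nonneg _) (Finset.mem_range.2 (by omega)))
    have hKn : ∀ n, n ≤ r → ∀ᶠ z in atTop,
        |K n z - (L 0 z + L (n + 1) z - Real.log (Q' z))| ≤ BB := by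
      intro n hn
      filter_upwards [hKB n] with z hz
      exact hz.trans (hBn n hn)
    set δ : ℝ := (1 - c) / 2 with hδ
    have hδ0 : 0 < δ := by rw [hδ]; linarith
    have hδ1 : δ < 1 := by rw [hδ]; linarith
    have hlogQ : ∀ᶠ x in atTop, Real.log (Q' x) ≤ 2 * Real.log (L 0 x) := by
      filter_upwards [deriv_le_sq hB (hLH 0) (hLt 0) hd, hQ't.eventually_gt_atTop 0] with x h1 h2
      have h3 := Real.log_le_log h2 h1
      rwa [Real.log_pow, Nat.cast_ofNat] at h3
    refine hWN hLN hDP hCM H hB Γ θ r hS hr (fun i => ⁅F (r - i + 1), f⁆) (fun i => K (r - i))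
      (K r) δ (2 * BB) hδ0 hδ1 (hKPs r).1 (hKPs r).2.1 (fun i _ => hKPs (r - i)) ?_ ?_ ?_
    · intro i j hij hj
      have h1 := hdiff (r - j + 1) (r - i + 1) (by omega)
      have h2 : Tendsto (fun x => (L (r - j + 1) x - L (r - i + 1) x) - 2 * BB) atTop atTop :=
        tendsto_atTop_add_const_right _ _ h1
      refine tendsto_atTop_mono' _ ?_ h2
      filter_upwards [hKn (r - j) (by omega), hKn (r - i) (by omega)] with x hx hy
      rw [abs_le] at hx hy
      linarith [hx.1, hy.2]
    · intro i _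
      filter_upwards [hKn r le_rfl, hKn (r - i) (by omega), hle (r - i + 1) (r + 1) (by omega)]
        with x hx hy hz
      rw [abs_le] at hx hy
      linarith [hx.2, hy.1]
    · intro i _
      have h1 : Tendsto (fun x => (1 - δ) * (1 - 2 * (Real.log (L 0 x) / L 0 x)) -
          L (r - i + 1) x / L 0 x) atTop (𝓝 ((1 - δ) * (1 - 2 * 0) - c ^ (r - i + 1))) :=
        ((((log_div (hLt 0)).const_mul 2).const_sub 1).const_mul (1 - δ)).sub
          (hratio (r - i + 1))
      have hl : 0 < (1 - δ) * (1 - 2 * 0) - c ^ (r - i + 1) := by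
        have := hcp (r - i)
        rw [hδ]
        linarith
      have h2 := mul_top (hLt 0) h1 hl
      have h3 : Tendsto (fun x => L 0 x * ((1 - δ) * (1 - 2 * (Real.log (L 0 x) / L 0 x)) -
          L (r - i + 1) x / L 0 x) - 3 * BB) atTop atTop :=
        tendsto_atTop_add_const_right _ _ h2
      refine tendsto_atTop_mono' _ ?_ h3
      filter_upwards [hKn r le_rfl, hKn (r - i) (by omega), hlogQ,
        (hLt (r + 1)).eventually_ge_atTop 0, (hLt 0).eventually_gt_atTop 0] with x hx hy hz hw h0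
      rw [abs_le] at hx hy
      have h0' : L 0 x ≠ 0 := h0.ne'
      have e : L 0 x * ((1 - δ) * (1 - 2 * (Real.log (L 0 x) / L 0 x)) -
          L (r - i + 1) x / L 0 x) =
          (1 - δ) * (L 0 x - 2 * Real.log (L 0 x)) - L (r - i + 1) x := by
        field_simp
      rw [e]
      have h4 : (1 - δ) * (L 0 x - 2 * Real.log (L 0 x)) ≤ (1 - δ) * (L 0 x - Real.log (Q' x)) :=
        mul_le_mul_of_nonneg_left (by linarith) (by linarith)
      have h5 : (2 - δ) * (L 0 x + L (r + 1) x - Real.log (Q' x) - BB) ≤ (2 - δ) * K r x :=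
        mul_le_mul_of_nonneg_left (by linarith [hx.1]) (by linarith)
      have h6 : 0 ≤ (2 - δ) * L (r + 1) x := mul_nonneg (by linarith) hw
      have h7 : (2 - δ) * BB ≤ 2 * BB := by nlinarith
      nlinarith [hy.2]

end Pool.Agent.Helper41.HG
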